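import Pool.Agent.W495.TA.Stms

/-!
# The formula of Shimura and Taniyama in terms of the decomposition group
-/

set_option autoImplicit false
set_option linter.unusedSectionVars false

namespace Pool.Agent.W366.TA

open NumberField Pool.Agent.H204R3.CM Pool.Agent.W547.KB Pool.Agent.W547.LD Pool.Agent.W495.TA

/-- Counting by the fibres of a map. -/
theorem card_fib {α β : Type*} [Finite α] [Finite β] (f : α → β) (k : ℕ)
    (hk : ∀ b, Nat.card {a // f a = b} = k) (P : β → Prop) :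
    Nat.card {a // P (f a)} = k * Nat.card {b // P b} := by
  classical
  have := Fintype.ofFinite α
  have := Fintype.ofFinite β
  have e : {a // P (f a)} ≃ Σ b : {b // P b}, {a // f a = b.1} :=
    { toFun := fun a => ⟨⟨f a.1, a.2⟩, ⟨a.1, rfl⟩⟩
      invFun := fun x => ⟨x.2.1, by rw [x.2.2]; exact x.1.2⟩
      left_inv := fun a => rfl
      right_inv := by
        rintro ⟨⟨b, hb⟩, ⟨a, ha⟩⟩
        dsimp only at ha
        subst ha
        rfl }
  rw [Nat.card_congr e, Nat.card_sigma]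
  simp only [hk]
  rw [Finset.sum_const, Finset.card_univ, ← Nat.card_eq_fintype_card, smul_eq_mul, mul_comm]

section

variable {p : ℕ} [Fact p.Prime] {ν : PadicAlgCl p ≃+* ℂ} {L : Type} [Field L] [NumberField L]

open Classical in
theorem card_tf (j : L →+* ℂ) (S : Set (L ≃ₐ[ℚ] L)) :
    (Nat.card (Dec p ν j) : ℤ) + tf p ν j S 1 =
      2 * (Nat.card {d : Dec p ν j // (d : L ≃ₐ[ℚ] L) ∈ S} : ℤ) := by
  have h1 : Nat.card (Dec p ν j) = ∑ d : L ≃ₐ[ℚ] L, if d ∈ Dec p ν j then 1 else 0 := by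
    rw [Nat.card_eq_fintype_card, ← Finset.card_filter]
    exact Fintype.card_subtype _
  have e : {d : Dec p ν j // (d : L ≃ₐ[ℚ] L) ∈ S} ≃ {d : L ≃ₐ[ℚ] L // d ∈ Dec p ν j ∧ d ∈ S} :=
    Equiv.subtypeSubtypeEquivSubtypeInter _ _
  have h2 : Nat.card {d : Dec p ν j // (d : L ≃ₐ[ℚ] L) ∈ S} =
      ∑ d : L ≃ₐ[ℚ] L, if d ∈ Dec p ν j ∧ d ∈ S then 1 else 0 := by
    rw [Nat.card_congr e, Nat.card_eq_fintype_card, ← Finset.card_filter]
    exact Fintype.card_subtype _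
  rw [h1, h2, tf]
  push_cast
  rw [← Finset.sum_add_distrib, Finset.mul_sum]
  refine Finset.sum_congr rfl fun d _ => ?_
  rw [mul_one]
  by_cases hd : d ∈ Dec p ν j <;> by_cases hs : d ∈ S <;> simp [hd, hs]

variable [IsCMField L] [IsGalois ℚ L] {E : Type} [Field E] [NumberField E]

/-- The map from the decomposition group to the embeddings defining the same place. -/
noncomputable def toPl (j : L →+* ℂ) (φ : E →+* L) (d : Dec p ν j) :
    {φ' : E →+* ℂ // SamePlace p ν (j.comp φ) φ'} :=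
  ⟨j.comp ((d : L ≃ₐ[ℚ] L) • φ), by
    obtain ⟨τ, hτ⟩ := d.2
    exact ⟨τ, fun x => hτ (φ x)⟩⟩

theorem toPl_surjective (j : L →+* ℂ) (φ : E →+* L) :
    Function.Surjective (toPl (p := p) (ν := ν) j φ) := by
  rintro ⟨φ', τ, hτ⟩
  let ψ : L →+* ℂ := (ν : PadicAlgCl p →+* ℂ).comp
    ((((τ : PadicAlgCl p ≃ₐ[ℚ_[p]] PadicAlgCl p) : PadicAlgCl p →+* PadicAlgCl p)).comp
      ((ν.symm : ℂ →+* PadicAlgCl p).comp j))
  obtain ⟨d, hd⟩ := comp_surjective j ψ
  have hd2 : ∀ x, j (d x) = ν (τ (ν.symm (j x))) := fun x => RingHom.congr_fun hd x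
  refine ⟨⟨d, τ, hd2⟩, Subtype.ext (RingHom.ext fun x => ?_)⟩
  change j (d (φ x)) = φ' x
  rw [hd2]
  exact (hτ x).symm

theorem toPl_eq_iff (j : L →+* ℂ) (φ : E →+* L) (d d' : Dec p ν j) :
    toPl j φ d = toPl j φ d' ↔ (d : L ≃ₐ[ℚ] L) • φ = (d' : L ≃ₐ[ℚ] L) • φ := by
  constructor
  · intro h
    have h1 := congrArg Subtype.val h
    refine RingHom.ext fun x => j.injective ?_
    exact RingHom.congr_fun h1 x
  · intro h
    apply Subtype.ext
    change j.comp _ = j.comp _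
    rw [h]

theorem card_fibre (j : L →+* ℂ) (φ : E →+* L)
    (b : {φ' : E →+* ℂ // SamePlace p ν (j.comp φ) φ'}) :
    Nat.card {d : Dec p ν j // toPl j φ d = b} =
      Nat.card {d : Dec p ν j // (d : L ≃ₐ[ℚ] L) • φ = φ} := by
  obtain ⟨d₀, rfl⟩ := toPl_surjective j φ b
  refine Nat.card_congr
    { toFun := fun d => ⟨d₀⁻¹ * d.1, ?_⟩
      invFun := fun d => ⟨d₀ * d.1, ?_⟩
      left_inv := fun d => Subtype.ext (mul_inv_cancel_left d₀ d.1)
      right_inv := fun d => Subtype.ext (inv_mul_cancel_left d₀ d.1) }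
  · have h := (toPl_eq_iff j φ _ _).1 d.2
    change ((d₀ : L ≃ₐ[ℚ] L)⁻¹ * (d.1 : L ≃ₐ[ℚ] L)) • φ = φ
    rw [mul_smul, h, inv_smul_smul]
  · rw [toPl_eq_iff]
    change ((d₀ : L ≃ₐ[ℚ] L) * (d.1 : L ≃ₐ[ℚ] L)) • φ = _
    rw [mul_smul, d.2]

end

theorem val : S_val := by
  intro p _ ν L _ _ _ _ j A hA a π
  have key : ∀ φ : A.E →+* L,
      (‖ν.symm (j (φ π))‖ ^ Nat.card {φ' : A.E →+* ℂ // SamePlace p ν (j.comp φ) φ'} =
        ‖(p : PadicAlgCl p) ^ a‖ ^
          Nat.card {φ' : A.E →+* ℂ // SamePlace p ν (j.comp φ) φ' ∧ φ' ∈ A.Φ}) ↔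
      ‖ν.symm (j (φ π))‖ ^ (2 * (Nat.card (Dec p ν j) : ℤ)) =
        ‖(p : PadicAlgCl p) ^ a‖ ^ ((Nat.card (Dec p ν j) : ℤ) + tf p ν j (hs A j φ) 1) := by
    intro φ
    set k := Nat.card {d : Dec p ν j // (d : L ≃ₐ[ℚ] L) • φ = φ} with hk
    have hk0 : 0 < k := Nat.card_pos_iff.2 ⟨⟨⟨1, one_smul _ φ⟩⟩, inferInstance⟩
    have hfin : Finite {φ' : A.E →+* ℂ // SamePlace p ν (j.comp φ) φ'} :=
      Subtype.finite
    have h1 := card_fib (toPl (p := p) (ν := ν) j φ) k (card_fibre j φ) (fun _ => True)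
    have h2 := card_fib (toPl (p := p) (ν := ν) j φ) k (card_fibre j φ) (fun b => b.1 ∈ A.Φ)
    rw [Nat.card_congr (Equiv.subtypeUnivEquiv fun _ => trivial),
      Nat.card_congr (Equiv.subtypeUnivEquiv fun _ => trivial)] at h1
    rw [Nat.card_congr (Equiv.subtypeSubtypeEquivSubtypeInter _ _)] at h2
    have h3 := card_tf (p := p) (ν := ν) j (hs A j φ)
    have h4 : Nat.card {d : Dec p ν j // (d : L ≃ₐ[ℚ] L) ∈ hs A j φ} =
        Nat.card {d : Dec p ν j // (toPl j φ d).1 ∈ A.Φ} := rfl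
    rw [h4, h2] at h3
    rw [h3, h1]
    set m := Nat.card {φ' : A.E →+* ℂ // SamePlace p ν (j.comp φ) φ'} with hm
    set n := Nat.card {φ' : A.E →+* ℂ // SamePlace p ν (j.comp φ) φ' ∧ φ' ∈ A.Φ} with hn
    have e1 : (2 * ((k * m : ℕ) : ℤ)) = ((m * (2 * k) : ℕ) : ℤ) := by push_cast; ring
    have e2 : (2 * ((k * n : ℕ) : ℤ)) = ((n * (2 * k) : ℕ) : ℤ) := by push_cast; ring
    rw [e1, e2, zpow_natCast, zpow_natCast, pow_mul _ m (2 * k), pow_mul _ n (2 * k)]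
    constructor
    · intro h
      rw [h]
    · intro h
      exact (pow_left_inj₀ (by positivity) (by positivity) (by omega)).1 h
  constructor
  · intro h φ
    exact (key φ).1 (h (j.comp φ))
  · intro h ψ
    obtain ⟨φ, rfl⟩ := hA ψ
    exact (key φ).2 (h φ)

end Pool.Agent.W366.TA
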